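import Pool.Agent.helper4.EC.Spec

set_option autoImplicit false

namespace Pool.Agent.helper4.EC

open Finset

universe u

theorem TR (h1 : SA_stmt.{u}) : TR_stmt.{u} := by
  intro V _ G X Y T x y hS hY hTX hTY
  obtain ⟨hxX, hyX, hxy, hI⟩ := hS
  obtain ⟨a, b, hab, hT⟩ := (h1 V G X T).mp hTX.symm
  obtain ⟨haX, hbX, hab', hI'⟩ := hab
  by_cases hax : a = x
  · subst hax
    refine ⟨b, ?_, ⟨haX, hbX, hab', hI'⟩, hT⟩
    intro hby
    subst hby
    have hTY' : T = Y := Subtype.ext (hT.trans hY.symm)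
    rw [hTY'] at hTY
    exact (iGraph G).loopless.irrefl _ hTY
  · exfalso
    obtain ⟨c, d, hcd, hT2⟩ := (h1 V G Y T).mp hTY.symm
    have haY : a ∈ Y.1 := by
      rw [hY]
      exact mem_insert_of_mem (mem_erase.mpr ⟨hax, haX⟩)
    have haT : a ∉ T.1 := by
      rw [hT, mem_insert, mem_erase]
      rintro (h | h)
      · exact hbX (h ▸ haX)
      · exact h.1 rfl
    have hac : a = c := by
      by_contra hne
      apply haT
      rw [hT2]
      exact mem_insert_of_mem (mem_erase.mpr ⟨hne, haY⟩)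
    have hyY : y ∈ Y.1 := by
      rw [hY]
      exact mem_insert_self _ _
    have hya : y ≠ a := by
      intro h
      exact hyX (h ▸ haX)
    have hyT : y ∈ T.1 := by
      rw [hT2]
      exact mem_insert_of_mem (mem_erase.mpr ⟨hac ▸ hya, hyY⟩)
    have hxT : x ∈ T.1 := by
      rw [hT]
      exact mem_insert_of_mem (mem_erase.mpr ⟨fun h => hax h.symm, hxX⟩)
    exact T.2.1.1 x hxT y hyT hxy

end Pool.Agent.helper4.EC
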